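import Mathlib
import Pool.Agent.R244.LacF

/-!
# The block `ℓ²` bound for lacunary coefficients with sparse spectrum fails

There is a sequence `(r_k)` as in the problem for which no constant `C` works.

Take very long blocks, with `r_k` about `2^{λ_s - 11}` on the block `[λ_s, λ_{s+1})`. Let `u_s` be the
average of the `n_s` exponentials with the frequencies `2^k`, `λ_s ≤ k < λ_s + n_s`, and let
`v_s = q_s(|u_s|²)`, where `q_s` is a polynomial with `√t ≤ q_s(t) ≤ 1` on `[0,1]` and `q_s(0)` very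
small; then `|u_s| ≤ v_s ≤ 1` and `v_s` has a very small mean, for `n_s` large. The function
`f = ∑_{s<S} u_s ∏_{j<s} (1 - v_j)` satisfies `|f| ≤ ∑ v_s ∏_{j<s} (1 - v_j) ≤ 1`, it has its
spectrum in `A`, and its coefficients at the frequencies `2^k` of the block `s` add up to at least
`1/2`, so that `Φ(f) ≥ S/4`.
-/

set_option autoImplicit false

namespace Pool.Agent.Results.MP_b4ed43_an.BlockBoundFails

open MeasureTheory Filter
open scoped ENNReal

/-- the set `A = ⋃ₖ [2^k - r_k, 2^k + r_k] ∩ ℤ` -/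
def A (r : ℕ → ℝ) : Set ℤ := {n | ∃ k : ℕ, |(n : ℝ) - 2 ^ k| ≤ r k}

/-- the indices `λ_s`: `λ_0 = 0` and `λ_{s+1}` is the least index `m` with `r_m ≥ 2^{λ_s}` -/
noncomputable def lam (r : ℕ → ℝ) : ℕ → ℕ
  | 0 => 0
  | s + 1 => sInf {m : ℕ | (2 : ℝ) ^ (lam r s) ≤ r m}

/-- `Φ(g)`, as a sum in `[0,∞]` -/
noncomputable def Phi (r : ℕ → ℝ) (g : C(AddCircle (1 : ℝ), ℂ)) : ℝ≥0∞ :=
  ∑' s : ℕ, (∑ k ∈ Finset.Ico (lam r s) (lam r (s + 1)), ‖fourierCoeff g ((2 : ℤ) ^ k)‖ₑ) ^ 2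

open Pool.Agent.R244.Lac

/-- the index of the block of `k` -/
noncomputable def blk (P : Par) (k : ℕ) : ℕ := Nat.findGreatest (fun s => P.L s ≤ k) k

lemma blk_eq (P : Par) (s k : ℕ) (h1 : P.L s ≤ k) (h2 : k < P.L (s + 1)) : blk P k = s := by
  unfold blk
  rw [Nat.findGreatest_eq_iff]
  refine ⟨(P.L_strictMono.id_le s).trans h1, fun _ => h1, fun m hm _ hmk => ?_⟩
  have := P.L_strictMono.monotone (show s + 1 ≤ m by omega)
  omega

lemma exists_blk (P : Par) (k : ℕ) : P.L (blk P k) ≤ k ∧ k < P.L (blk P k + 1) := by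
  have hex : ∃ s, P.L s ≤ k ∧ k < P.L (s + 1) := by
    have h0 : ∃ m, k < P.L m := ⟨k + 1, lt_of_lt_of_le (Nat.lt_succ_self k) (P.L_strictMono.id_le _)⟩
    classical
    obtain ⟨m, hm, hmin⟩ : ∃ m, k < P.L m ∧ ∀ j < m, ¬ k < P.L j :=
      ⟨Nat.find h0, Nat.find_spec h0, fun j hj => Nat.find_min h0 hj⟩
    have hm0 : m ≠ 0 := by
      rintro rfl
      simp [Par.L] at hm
    obtain ⟨s, rfl⟩ := Nat.exists_eq_succ_of_ne_zero hm0
    exact ⟨s, not_lt.mp (hmin s (Nat.lt_succ_self s)), hm⟩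
  obtain ⟨s, h1, h2⟩ := hex
  rw [blk_eq P s k h1 h2]
  exact ⟨h1, h2⟩

lemma blk_mono (P : Par) : Monotone (blk P) := by
  intro k l hkl
  by_contra h
  push Not at h
  have h1 := (exists_blk P k).1
  have h2 := (exists_blk P l).2
  have h3 := P.L_strictMono.monotone (show blk P l + 1 ≤ blk P k by omega)
  omega

/-- the sequence `r` -/
noncomputable def rr (P : Par) (k : ℕ) : ℝ :=
  (1 / 2 ^ 11) * (2 ^ P.L (blk P k) + (1 - 1 / ((k : ℝ) + 2)))

lemma small_bounds (k : ℕ) : 0 < 1 - 1 / ((k : ℝ) + 2) ∧ 1 - 1 / ((k : ℝ) + 2) < 1 := by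
  have hk : (0 : ℝ) ≤ k := Nat.cast_nonneg k
  have h1 : 1 / ((k : ℝ) + 2) ≤ 1 / 2 := by
    apply div_le_div_of_nonneg_left zero_le_one (by norm_num)
    linarith
  have h2 : 0 < 1 / ((k : ℝ) + 2) := by positivity
  constructor <;> linarith

lemma rr_strictMono (P : Par) : StrictMono (rr P) := by
  apply strictMono_nat_of_lt_succ
  intro k
  unfold rr
  apply mul_lt_mul_of_pos_left _ (by positivity)
  have h1 : (2 : ℝ) ^ P.L (blk P k) ≤ 2 ^ P.L (blk P (k + 1)) :=
    pow_le_pow_right₀ (by norm_num) (P.L_strictMono.monotone (blk_mono P (Nat.le_succ k)))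
  have h2 : 1 / (((k + 1 : ℕ) : ℝ) + 2) < 1 / ((k : ℝ) + 2) := by
    apply div_lt_div_of_pos_left one_pos (by positivity)
    push_cast
    linarith
  linarith

lemma rr_ge (P : Par) (k : ℕ) : (1 / 2 ^ 11) * 2 ^ P.L (blk P k) < rr P k := by
  unfold rr
  have := (small_bounds k).1
  apply mul_lt_mul_of_pos_left _ (by positivity)
  linarith

lemma rr_lt (P : Par) (k : ℕ) : rr P k < (1 / 2 ^ 10) * 2 ^ P.L (blk P k) := by
  unfold rr
  have h1 := (small_bounds k).2
  have h2 : (1 : ℝ) ≤ 2 ^ P.L (blk P k) := one_le_pow₀ (by norm_num)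
  have h3 : (1 / 2 ^ 10 : ℝ) * 2 ^ P.L (blk P k) =
      (1 / 2 ^ 11) * (2 ^ P.L (blk P k) + 2 ^ P.L (blk P k)) := by ring
  rw [h3]
  apply mul_lt_mul_of_pos_left _ (by positivity)
  linarith

lemma rr_pos (P : Par) (k : ℕ) : 0 < rr P k :=
  lt_trans (by positivity) (rr_ge P k)

lemma rr_lt_pow (P : Par) (k : ℕ) : rr P k < 2 ^ ((k : ℤ) - 10) := by
  refine (rr_lt P k).trans_le ?_
  have h1 : (2 : ℝ) ^ P.L (blk P k) ≤ 2 ^ k := pow_le_pow_right₀ (by norm_num) (exists_blk P k).1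
  have h2 : (2 : ℝ) ^ ((k : ℤ) - 10) = (1 / 2 ^ 10) * 2 ^ k := by
    rw [zpow_sub₀ (by norm_num), zpow_natCast]
    norm_num
    ring
  rw [h2]
  gcongr

lemma rr_tendsto (P : Par) : Tendsto (rr P) atTop atTop := by
  apply tendsto_atTop_mono (fun k => (rr_ge P k).le)
  apply Tendsto.const_mul_atTop (by positivity)
  have h1 : Tendsto (fun k => P.L (blk P k)) atTop atTop := by
    apply P.L_strictMono.tendsto_atTop.comp
    apply tendsto_atTop_atTop.mpr
    intro b
    refine ⟨P.L b, fun k hk => ?_⟩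
    have h := blk_mono P hk
    rw [blk_eq P b (P.L b) le_rfl (P.L_strictMono (Nat.lt_succ_self b))] at h
    exact h
  exact (tendsto_pow_atTop_atTop_of_one_lt (by norm_num : (1 : ℝ) < 2)).comp h1

lemma lam_eq (P : Par) (s : ℕ) : lam (rr P) s = P.L s := by
  induction s with
  | zero => rfl
  | succ s ih =>
    have h : lam (rr P) (s + 1) = sInf {m : ℕ | (2 : ℝ) ^ (lam (rr P) s) ≤ rr P m} := rfl
    rw [h, ih]
    have hb : blk P (P.L (s + 1)) = s + 1 :=
      blk_eq P (s + 1) _ le_rfl (P.L_strictMono (Nat.lt_succ_self _))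
    have hmem : P.L (s + 1) ∈ {m : ℕ | (2 : ℝ) ^ P.L s ≤ rr P m} := by
      have h1 := rr_ge P (P.L (s + 1))
      rw [hb] at h1
      refine le_trans ?_ h1.le
      have h2 : P.L s + 11 ≤ P.L (s + 1) := by
        rw [P.L_succ]
        omega
      have h3 : (2 : ℝ) ^ (P.L s + 11) ≤ 2 ^ P.L (s + 1) := pow_le_pow_right₀ (by norm_num) h2
      rw [pow_add] at h3
      calc (2 : ℝ) ^ P.L s = (1 / 2 ^ 11) * (2 ^ P.L s * 2 ^ 11) := by ring
        _ ≤ _ := by gcongr
    apply le_antisymm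
    · exact Nat.sInf_le hmem
    · apply le_csInf ⟨_, hmem⟩
      intro m hm
      by_contra hlt
      push Not at hlt
      have h1 := rr_lt P m
      have h2 : blk P m ≤ s := by
        by_contra h3
        push Not at h3
        have h4 := P.L_strictMono.monotone (show s + 1 ≤ blk P m by omega)
        have h5 := (exists_blk P m).1
        omega
      have h3 : (2 : ℝ) ^ P.L (blk P m) ≤ 2 ^ P.L s :=
        pow_le_pow_right₀ (by norm_num) (P.L_strictMono.monotone h2)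
      have h4 : (2 : ℝ) ^ P.L s ≤ rr P m := hm
      have h5 : (0 : ℝ) < 2 ^ P.L s := by positivity
      have h6 : (1 / 2 ^ 10 : ℝ) * 2 ^ P.L (blk P m) ≤ (1 / 2 ^ 10) * 2 ^ P.L s := by gcongr
      have h7 : (1 / 2 ^ 10 : ℝ) * 2 ^ P.L s < 2 ^ P.L s := by
        have : (1 / 2 ^ 10 : ℝ) < 1 := by norm_num
        nlinarith
      linarith

/-- **The block bound fails.** -/
theorem result : ∃ r : ℕ → ℝ, StrictMono r ∧ (∀ k : ℕ, 0 < r k ∧ r k < 2 ^ ((k : ℤ) - 10)) ∧
    Tendsto r atTop atTop ∧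
    ∀ C : ℝ, ∃ f : C(AddCircle (1 : ℝ), ℂ), (∀ n : ℤ, n ∉ A r → fourierCoeff f n = 0) ∧
      ENNReal.ofReal (C * ‖f‖ ^ 2) < Phi r f := by
  obtain ⟨P⟩ := exists_par
  refine ⟨rr P, rr_strictMono P, fun k => ⟨rr_pos P k, rr_lt_pow P k⟩, rr_tendsto P, fun C => ?_⟩
  obtain ⟨S, hS⟩ := exists_nat_gt (4 * |C|)
  refine ⟨P.f S, ?_, ?_⟩
  · intro m hm
    apply cf_Sp (P.f_mem S)
    rintro ⟨s, i, hi, hmi⟩
    apply hm
    refine ⟨P.L s + i, ?_⟩
    have hb : blk P (P.L s + i) = s := by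
      apply blk_eq P s _ (Nat.le_add_right _ _)
      rw [P.L_succ]
      omega
    have h1 : |(m : ℝ) - 2 ^ (P.L s + i)| ≤ P.D s := by
      have : ((|m - 2 ^ (P.L s + i)| : ℤ) : ℝ) ≤ ((P.D s : ℤ) : ℝ) := by exact_mod_cast hmi
      push_cast at this
      exact this
    have h2 := rr_ge P (P.L s + i)
    rw [hb] at h2
    have h3 : (P.D s : ℝ) * 2 ^ 11 ≤ 2 ^ P.L s := by exact_mod_cast P.D_bound s
    have h4 : (P.D s : ℝ) ≤ (1 / 2 ^ 11) * 2 ^ P.L s := by
      calc (P.D s : ℝ) = (1 / 2 ^ 11) * (P.D s * 2 ^ 11) := by ring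
        _ ≤ _ := by gcongr
    linarith
  · have hC : C * ‖P.f S‖ ^ 2 ≤ |C| := by
      have h1 := P.f_norm S
      have h0 := norm_nonneg (P.f S)
      have h2 : ‖P.f S‖ ^ 2 ≤ 1 := by nlinarith
      calc C * ‖P.f S‖ ^ 2 ≤ |C| * ‖P.f S‖ ^ 2 := by
            gcongr
            exact le_abs_self C
        _ ≤ |C| * 1 := by gcongr
        _ = |C| := mul_one _
    have hblock : ∀ s ∈ Finset.range S, ENNReal.ofReal (1 / 4) ≤
        (∑ k ∈ Finset.Ico (lam (rr P) s) (lam (rr P) (s + 1)),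
          ‖fourierCoeff (P.f S) ((2 : ℤ) ^ k)‖ₑ) ^ 2 := by
      intro s hs
      have hs' := Finset.mem_range.mp hs
      rw [lam_eq, lam_eq]
      have hn : (0 : ℝ) < P.n s := by exact_mod_cast P.hn s
      have h1 : ENNReal.ofReal (1 / 2) ≤ ∑ k ∈ Finset.Ico (P.L s) (P.L (s + 1)),
          ‖fourierCoeff (P.f S) ((2 : ℤ) ^ k)‖ₑ := by
        have h2 : ∀ k ∈ Finset.Ico (P.L s) (P.L s + P.n s),
            ENNReal.ofReal ((1 / 2) / P.n s) ≤ ‖fourierCoeff (P.f S) ((2 : ℤ) ^ k)‖ₑ := by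
          intro k hk
          rw [Finset.mem_Ico] at hk
          obtain ⟨i, rfl⟩ := Nat.exists_eq_add_of_le hk.1
          have h3 := P.cf_f S s i hs' (by omega)
          rw [cf_apply] at h3
          rw [h3, ← ofReal_norm, norm_mul]
          apply ENNReal.ofReal_le_ofReal
          have h4 : ‖(1 / (P.n s : ℂ))‖ = 1 / P.n s := by simp
          rw [h4]
          have h5 := P.cf_w s
          calc (1 / 2 : ℝ) / P.n s = (1 / P.n s) * (1 / 2) := by ring
            _ ≤ _ := by gcongr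
        calc ENNReal.ofReal (1 / 2)
            = ∑ k ∈ Finset.Ico (P.L s) (P.L s + P.n s), ENNReal.ofReal ((1 / 2) / P.n s) := by
              rw [Finset.sum_const, Nat.card_Ico, Nat.add_sub_cancel_left, nsmul_eq_mul,
                ← ENNReal.ofReal_natCast, ← ENNReal.ofReal_mul (by positivity)]
              congr 1
              field_simp
          _ ≤ ∑ k ∈ Finset.Ico (P.L s) (P.L s + P.n s), ‖fourierCoeff (P.f S) ((2 : ℤ) ^ k)‖ₑ :=
              Finset.sum_le_sum h2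
          _ ≤ _ := by
              apply Finset.sum_le_sum_of_subset
              apply Finset.Ico_subset_Ico_right
              rw [P.L_succ]
              omega
      calc ENNReal.ofReal (1 / 4) = (ENNReal.ofReal (1 / 2)) ^ 2 := by
            rw [← ENNReal.ofReal_pow (by norm_num)]
            congr 1
            norm_num
        _ ≤ _ := by gcongr
    have hsum : ENNReal.ofReal ((S : ℝ) / 4) ≤ Phi (rr P) (P.f S) := by
      unfold Phi
      refine le_trans ?_ (ENNReal.sum_le_tsum (Finset.range S))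
      refine le_trans (le_of_eq ?_) (Finset.sum_le_sum hblock)
      rw [Finset.sum_const, Finset.card_range, nsmul_eq_mul, ← ENNReal.ofReal_natCast,
        ← ENNReal.ofReal_mul (by positivity)]
      congr 1
      ring
    refine lt_of_le_of_lt (ENNReal.ofReal_le_ofReal hC) (lt_of_lt_of_le ?_ hsum)
    rw [ENNReal.ofReal_lt_ofReal_iff_of_nonneg (abs_nonneg C)]
    linarith

end Pool.Agent.Results.MP_b4ed43_an.BlockBoundFails
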